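import Pool.Agent.H.MP_df8bb0_lc.C

set_option autoImplicit false

namespace Pool.Agent.Results.MP_df8bb0_lc.Poly
open Pool.Agent.Lib.CX Pool.Agent.H.MP_df8bb0_lc

theorem result (p : ℕ) (hp : 1 ≤ p) :
    (∃ f : List (ℕ × ℕ) → ℕ, PT f ∧ ∀ I : List (ℕ × ℕ),
      IsLeast {c | ∃ L C, IsSched p I.length L C ∧ c = cost I C} ((f I : ℝ) / 2)) ∧
    InP fun a : List (ℕ × ℕ) × ℤ => ∃ L C, IsSched p a.1.length L C ∧ cost a.1 C ≤ a.2 := by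
  have h := pt_val p
  refine ⟨⟨val p, h, val_spec hp⟩, fun a => decide ((val p a.1 : ℤ) ≤ 2 * a.2), by fun_prop, fun a => ?_⟩
  obtain ⟨⟨L, C, h1, h2⟩, h3⟩ := val_spec hp a.1
  rw [decide_eq_true_eq, ← Int.cast_le (R := ℝ)]
  push_cast
  exact ⟨fun ⟨L, C, h1, h2⟩ => by linarith [h3 ⟨L, C, h1, rfl⟩], fun k => ⟨L, C, h1, by linarith⟩⟩

end Pool.Agent.Results.MP_df8bb0_lc.Poly
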